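import Pool.Agent.H22.VM.Targets

/-!
# CO: the core theorem (helper35)
-/

set_option autoImplicit false

open Finset

namespace Pool.Agent.H35.VM

open Pool.Agent.H22.VM

theorem co (hMX : T_MX) (hPS : T_PS) (hPT : T_PT) (hST : T_ST) (hTV : T_TV) (hB0 : T_B0) :
    T_CO := by
  intro p k σ ρ γ η smax c' C' hp hkp hp32 hk hc0 hcγ hγ1 hη hC' hflat
  by_cases hex : ∃ s, Par k σ ρ γ η s ∧ s ≤ smax
  swap
  · refine ⟨0, le_refl _, ?_⟩
    intro s M L xT n b₁ hPar hsm
    exact absurd ⟨s, hPar, hsm⟩ hex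
  obtain ⟨s₁, hs₁, hs₁m⟩ := hex
  have hγ0 : 0 < γ := lt_of_le_of_lt hc0 hcγ
  have hρpos : ∀ l, 1 ≤ l → l < k → 0 < ρ l := fun l hl hlk => (hs₁.2.2.2 l hl hlk).1
  have hsm2 : 2 ≤ smax := by
    have := hs₁.2.2.2 1 (le_refl _) (by omega)
    linarith [this.2.1, this.2.2.1]
  obtain ⟨C, hC, hps⟩ := hPS p k σ ρ γ η c' C' hp hkp hk hc0 hC' hflat
  obtain ⟨β₀, Θ₀, hΘ₀, hmx⟩ := hMX k σ ρ γ η c' C hk hc0 hcγ hγ1 hC hη
  set β : ℕ := max β₀ (3 * k) with hβ
  have hβ₀ : β₀ ≤ β := le_max_left _ _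
  have hβ3 : 3 * k ≤ β := le_max_right _ _
  have hβ1 : 1 ≤ β := by omega
  have hp1 : 1 < p := hp.one_lt
  have hlog : 0 < Real.log p := Real.log_pos (by exact_mod_cast hp1)
  set S : ℝ := (2 * smax + 5 + 2 * β * smax) * Real.log p with hS
  have hS0 : 0 ≤ S := by positivity
  set ρs : ℝ := ∑ l ∈ Ico 1 k, ρ l with hρs
  have hρle : ∀ l, 1 ≤ l → l < k → ρ l ≤ ρs := by
    intro l hl hlk
    apply single_le_sum (f := ρ) _ (mem_Ico.2 ⟨hl, hlk⟩)
    intro j hj
    rw [mem_Ico] at hj
    exact (hρpos j hj.1 hj.2).le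
  have hρ1 : 0 < ρ 1 := hρpos 1 (le_refl _) (by omega)
  have hρs0 : 0 < ρs := lt_of_lt_of_le hρ1 (hρle 1 (le_refl _) (by omega))
  refine ⟨β * Real.log p + S + ((S + 1) / ρ 1 + Θ₀) * ρs * ((k : ℝ) ^ 2) ^ γ, by positivity, ?_⟩
  intro s M L xT n b₁ hPar hsm hM hL hxT ι Ω _ w R r F hw hInv hmo hfin hlow hb₁ hterm
  have hs2 : 2 ≤ s := by
    have := hPar.2.2.2 1 (le_refl _) (by omega)
    linarith [this.2.1, this.2.2.1]
  have hσ : ∀ j, 1 ≤ j → j < k → 1 ≤ σ j ∧ σ j ≤ s := by
    intro j hj hjk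
    have := hPar.2.2.2 j hj hjk
    exact ⟨this.2.1, by linarith [this.2.2.1]⟩
  have hbase : (1 : ℝ) ≤ ((b₁ : ℝ) + 1) ^ γ := by
    apply Real.one_le_rpow _ hγ0.le
    have : (0 : ℝ) ≤ b₁ := by positivity
    linarith
  have hT1 : 0 ≤ (β : ℝ) * Real.log p := by positivity
  have hT3 : 0 ≤ ((S + 1) / ρ 1 + Θ₀) * ρs * ((k : ℝ) ^ 2) ^ γ := by positivity
  have fin1 : ∀ y : ℝ, y ≤ β * Real.log p + S + ((S + 1) / ρ 1 + Θ₀) * ρs * ((k : ℝ) ^ 2) ^ γ →
      y ≤ (β * Real.log p + S + ((S + 1) / ρ 1 + Θ₀) * ρs * ((k : ℝ) ^ 2) ^ γ) *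
        ((b₁ : ℝ) + 1) ^ γ := by
    intro y hy
    refine hy.trans (le_mul_of_one_le_right (by positivity) hbase)
  -- ST gives a bound
  have hst : ∀ x : ℝ, β ≤ n → BL p s n w R r F M L 1 1 β x → x ≤ S := by
    intro x hβn hx
    refine (hST p n β s M L x hp32 hs2 hβ1 hβn hM ι Ω w R r F hw hmo hlow hx).trans ?_
    rw [hS]
    apply mul_le_mul_of_nonneg_right _ hlog.le
    have : 2 * (β : ℝ) * s ≤ 2 * (β : ℝ) * smax := mul_le_mul_of_nonneg_left hsm (by positivity)
    linarith
  rcases Nat.lt_or_ge n β with hnβ | hβn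
  · -- n < β
    apply fin1
    have h1 := hTV p n s M hp1 (by linarith) ι Ω w R r F hw hfin 0 (Nat.zero_le _) 0
    have hcls : cls p R r 0 0 = R := by
      unfold cls
      simp
    rw [hcls, Nat.sub_zero] at h1
    have h2 := hlow.trans h1
    have hX : (0 : ℝ) < (p : ℝ) ^ n := by positivity
    have hXs : (0 : ℝ) < ((p : ℝ) ^ n) ^ s := by positivity
    have h3 : Real.exp L ≤ ((p : ℝ) ^ n) ^ s := by
      have e1 : ((p : ℝ) ^ n) ^ (2 * s) = ((p : ℝ) ^ n) ^ s * ((p : ℝ) ^ n) ^ s := by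
        rw [two_mul, Real.rpow_add hX]
      rw [e1] at h2
      have h4 : Real.exp L * (((p : ℝ) ^ n) ^ s * M) ≤
          ((p : ℝ) ^ n) ^ s * (((p : ℝ) ^ n) ^ s * M) := by linarith
      exact le_of_mul_le_mul_right h4 (by positivity)
    have h4 : L ≤ s * (n * Real.log p) := by
      have h5 := Real.log_le_log (Real.exp_pos _) h3
      rw [Real.log_exp, Real.log_rpow hX, Real.log_pow] at h5
      exact h5
    have h5 : L / s ≤ n * Real.log p := by
      rw [div_le_iff₀ (by linarith)]
      linarith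
    have h6 : (n : ℝ) * Real.log p ≤ β * Real.log p := by
      apply mul_le_mul_of_nonneg_right _ hlog.le
      exact_mod_cast hnβ.le
    linarith
  · obtain ⟨htriv, -, -, hmono⟩ := hB0 p n s M L hp1 hM.le (by linarith) ι Ω w R r F hw hmo hfin
    set N : ℕ := min n (k ^ 2 * (b₁ + 1)) with hN
    have hNn : N ≤ n := min_le_left _ _
    have hNk : N ≤ k ^ 2 * (b₁ + 1) := min_le_right _ _
    rcases Nat.lt_or_ge N β with hNβ | hβN
    · -- N < β
      apply fin1
      have hb₁β : b₁ ≤ β := by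
        have h1 : k ^ 2 * (b₁ + 1) < β := by
          rcases min_choice n (k ^ 2 * (b₁ + 1)) with h | h
          · rw [hN, h] at hNβ; omega
          · rw [hN, h] at hNβ; exact hNβ
        have h2 : 1 * (b₁ + 1) ≤ k ^ 2 * (b₁ + 1) :=
          Nat.mul_le_mul_right _ (Nat.one_le_pow _ _ (by omega))
        omega
      have h1 := hterm 1 β (le_refl _) (by omega) hβ1 hb₁β hβn (by nlinarith)
      have h2 := hst _ hβn h1
      linarith
    · rcases le_or_gt xT 0 with hx0 | hx0
      · apply fin1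
        linarith
      have hN1 : 1 ≤ N := hβ1.trans hβN
      have hNγ : 0 < (N : ℝ) ^ γ := by
        have : (0 : ℝ) < N := by exact_mod_cast hN1
        positivity
      set Θ : ℝ := xT / (ρs * (N : ℝ) ^ γ) with hΘ
      have hΘ0 : 0 < Θ := by positivity
      have hxTΘ : xT = Θ * (ρs * (N : ℝ) ^ γ) := by
        rw [hΘ, div_mul_cancel₀ _ (by positivity)]
      have hNle : (N : ℝ) ^ γ ≤ ((k : ℝ) ^ 2) ^ γ * ((b₁ : ℝ) + 1) ^ γ := by
        rw [← Real.mul_rpow (by positivity) (by positivity)]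
        apply Real.rpow_le_rpow (by positivity) _ hγ0.le
        exact_mod_cast hNk
      -- bound for Θ
      have hΘle : Θ ≤ (S + 1) / ρ 1 + Θ₀ := by
        rcases lt_or_ge Θ Θ₀ with h | h
        · have : 0 ≤ (S + 1) / ρ 1 := by positivity
          linarith
        · have hP1 := hmx s hPar β N (PP p k σ s n w R r F M L)
            (fun l b => (l = 1 ∧ b₁ ≤ b) ∨ (2 ≤ l ∧ (n ≤ (k - l + 1) * b / l ∨
              (b₁ ≤ b ∧ b₁ ≤ (k - l + 1) * b / l)))) xT Θ hβ₀ hβ1 hβN h
            (by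
              intro l b x y hyx hx
              refine ⟨fun hl => hyx.trans (hx.1 hl), fun hl a ha1 han ha4 => ?_, fun hl => ?_⟩
              · exact hmono _ _ _ _ _ hyx (hx.2.1 hl a ha1 han ha4)
              · exact hmono _ _ _ _ _ hyx (hx.2.2 hl))
            (by
              intro l b hlk hb hbN
              refine ⟨fun _ => le_refl _, fun hl a ha1 han ha4 => ?_, fun hl => ?_⟩
              · exact htriv 1 a b (by norm_num) (by linarith) han (hbN.trans hNn)
              · have := hσ l (by omega) hlk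
                exact htriv (σ l) _ b (by linarith [this.1]) this.2 (min_le_right _ _)
                  (hbN.trans hNn))
            (by
              intro l b hl hlk hb hbN hT
              exact hPT p k σ ρ γ η s M L xT n b₁ β hp1 hk hPar hM.le hL hβ3 hxT ι Ω w R r F hw
                hmo hfin hterm l b hl hlk hb (hbN.trans hNn) hT)
            (by
              intro l b hl hlk hb hbN hT
              have ha : (k - l + 1) * b / l ≤ n ∧ (k - l + 1) * b / l ≤ k ^ 2 * (b₁ + 1) := by
                have hup : (k - l + 1) * b / l ≤ k * b := by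
                  calc (k - l + 1) * b / l ≤ (k - l + 1) * b := Nat.div_le_self _ _
                    _ ≤ k * b := Nat.mul_le_mul_right _ (by omega)
                have hkk : k ≤ k ^ 2 := by nlinarith
                rcases Nat.lt_or_ge l 2 with hl2 | hl2
                · obtain rfl : l = 1 := by omega
                  have hbb : b < b₁ := by
                    by_contra hcon
                    exact hT (Or.inl ⟨rfl, by omega⟩)
                  refine ⟨hup.trans (hb₁ b hbb), hup.trans ?_⟩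
                  exact Nat.mul_le_mul hkk (by omega)
                · have h1 : ¬ (n ≤ (k - l + 1) * b / l) := fun h => hT (Or.inr ⟨hl2, Or.inl h⟩)
                  refine ⟨by omega, ?_⟩
                  rcases Nat.lt_or_ge b b₁ with hbb | hbb
                  · exact hup.trans (Nat.mul_le_mul hkk (by omega))
                  · have h2 : (k - l + 1) * b / l < b₁ := by
                      by_contra hcon
                      exact hT (Or.inr ⟨hl2, Or.inr ⟨hbb, by omega⟩⟩)
                    have h3 : 1 ≤ k ^ 2 := by omega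
                    nlinarith
              refine ⟨le_min ha.1 ha.2, ?_⟩
              intro x y hx hy
              exact hps s M L n β hPar hM.le hβ3 ι Ω w R r F hw hInv hmo hfin l b hl hlk hb
                (hbN.trans hNn) ha.1 x y hx hy)
            (by
              intro l hl hlk
              rw [hxTΘ, mul_assoc]
              apply mul_le_mul_of_nonneg_left _ hΘ0.le
              exact mul_le_mul_of_nonneg_right (hρle l hl hlk) hNγ.le)
          have h1 := hP1.2.1 rfl 1 (le_refl _) (by omega) (by nlinarith)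
          have h2 := hst _ hβn h1
          have h3 : (1 : ℝ) ≤ (β : ℝ) ^ γ := by
            apply Real.one_le_rpow _ hγ0.le
            exact_mod_cast hβ1
          have h4 : Θ * ρ 1 ≤ S + 1 := by
            have h5 : Θ * ρ 1 * 1 ≤ Θ * ρ 1 * (β : ℝ) ^ γ :=
              mul_le_mul_of_nonneg_left h3 (by positivity)
            linarith
          have h5 : Θ ≤ (S + 1) / ρ 1 := by
            rw [le_div_iff₀ hρ1]; exact h4
          linarith
      have h7 : xT ≤ ((S + 1) / ρ 1 + Θ₀) * ρs * ((k : ℝ) ^ 2) ^ γ * ((b₁ : ℝ) + 1) ^ γ := by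
        calc xT = Θ * (ρs * (N : ℝ) ^ γ) := hxTΘ
          _ ≤ ((S + 1) / ρ 1 + Θ₀) * (ρs * (((k : ℝ) ^ 2) ^ γ * ((b₁ : ℝ) + 1) ^ γ)) := by
              apply mul_le_mul hΘle _ (by positivity) (by positivity)
              exact mul_le_mul_of_nonneg_left hNle hρs0.le
          _ = _ := by ring
      have h8 : 0 ≤ (β * Real.log p + S) * ((b₁ : ℝ) + 1) ^ γ := by positivity
      linarith

end Pool.Agent.H35.VM
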