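import Pool.Agent.H22.VM.Targets

/-!
# MX: the maximum principle for the recursion (helper35)
-/

set_option autoImplicit false

open Finset

namespace Pool.Agent.H35.VM

open Pool.Agent.H22.VM

theorem wt_bounds {k : ℕ} {σ ρ : ℕ → ℝ} {γ η s : ℝ} (hP : Par k σ ρ γ η s) {l : ℕ} (hl : 1 ≤ l)
    (hlk : l < k) : 0 < wt k σ s l ∧ wt k σ s l < 1 := by
  obtain ⟨-, -, -, h⟩ := hP
  obtain ⟨-, -, -, h1, h2, -⟩ := h l hl hlk
  have hd : 0 < s - σ (k - l) - σ (l - 1) := by linarith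
  unfold wt
  refine ⟨div_pos h1 hd, ?_⟩
  rw [div_lt_one hd]
  linarith

theorem floor_ge {k l b β : ℕ} (hl : 1 ≤ l) (hlk : l < k) (hβ : 1 ≤ β) (hb : β * l ≤ b) :
    (1 - 1 / (β : ℝ)) * ((((k - l + 1 : ℕ) : ℝ) / (l : ℝ)) * (b : ℝ)) ≤
      (((k - l + 1) * b / l : ℕ) : ℝ) := by
  have hl0 : (0 : ℝ) < l := by exact_mod_cast hl
  have hβ0 : (0 : ℝ) < β := by exact_mod_cast hβ
  have hb' : (β : ℝ) * l ≤ b := by exact_mod_cast hb
  have hkl : (1 : ℝ) ≤ ((k - l + 1 : ℕ) : ℝ) := by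
    have : 1 ≤ k - l + 1 := by omega
    exact_mod_cast this
  have hfl : (((k - l + 1) * b : ℕ) : ℝ) / (l : ℝ) - 1 < (((k - l + 1) * b / l : ℕ) : ℝ) := by
    have h := Nat.lt_div_mul_add (a := (k - l + 1) * b) (b := l) (by omega)
    have h2 : (((k - l + 1) * b : ℕ) : ℝ) < (((k - l + 1) * b / l : ℕ) : ℝ) * l + l := by
      exact_mod_cast h
    rw [sub_lt_iff_lt_add, div_lt_iff₀ hl0]
    linarith
  have hx : (β : ℝ) ≤ (((k - l + 1 : ℕ) : ℝ) / (l : ℝ)) * (b : ℝ) := by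
    have h1 : (β : ℝ) ≤ (b : ℝ) / l := by
      rw [le_div_iff₀ hl0]; exact hb'
    have h2 : (b : ℝ) / l ≤ (((k - l + 1 : ℕ) : ℝ) / (l : ℝ)) * (b : ℝ) := by
      rw [div_mul_eq_mul_div]
      gcongr
      have hb0 : (0 : ℝ) ≤ b := by positivity
      nlinarith
    linarith
  have hx1 : 1 ≤ (1 / (β : ℝ)) * ((((k - l + 1 : ℕ) : ℝ) / (l : ℝ)) * (b : ℝ)) := by
    rw [one_div, inv_mul_eq_div, le_div_iff₀ hβ0]
    linarith
  have e1 : (((k - l + 1) * b : ℕ) : ℝ) / (l : ℝ) = (((k - l + 1 : ℕ) : ℝ) / (l : ℝ)) * (b : ℝ) := by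
    push_cast
    ring
  rw [e1] at hfl
  linarith

theorem claim1 {k : ℕ} {σ ρ : ℕ → ℝ} {γ η c' C s : ℝ} (hc0 : 0 ≤ c') (hcγ : c' < γ)
    (hγ1 : γ ≤ 1) (hη : 0 < η) (hP : Par k σ ρ γ η s) {β : ℕ} (hβη : 2 * (1 + η) / η ≤ β)
    (hβ1 : 1 ≤ β) {Θ : ℝ} (hΘ0 : 0 < Θ)
    (hΘ : ∀ l, 1 ≤ l → l < k → C ≤ Θ * ρ l * (η / 2)) {l b : ℕ} (hl : 1 ≤ l) (hlk : l < k)
    (hb : β * l ≤ b) :
    Θ * ρ l * (b : ℝ) ^ γ ≤
      wt k σ s l * (Θ * ρ (k - l) * (((k - l + 1) * b / l : ℕ) : ℝ) ^ γ) +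
        (1 - wt k σ s l) * (Θ * ρ (l - 1) * (b : ℝ) ^ γ) - C * (b : ℝ) ^ c' := by
  obtain ⟨hw0, hw1⟩ := wt_bounds hP hl hlk
  obtain ⟨-, -, hρ0, h⟩ := hP
  obtain ⟨hρl, -, -, -, -, hη'⟩ := h l hl hlk
  have hρkl : 0 < ρ (k - l) := (h (k - l) (by omega) (by omega)).1
  have hρl1 : 0 ≤ ρ (l - 1) := by
    by_cases h1 : l - 1 = 0
    · rw [h1, hρ0]
    · exact (h (l - 1) (by omega) (by omega)).1.le
  have hγ0 : 0 < γ := lt_of_le_of_lt hc0 hcγ
  have hb1 : 1 ≤ b := le_trans (by nlinarith [Nat.mul_le_mul hβ1 hl]) hb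
  have hb1' : (1 : ℝ) ≤ b := by exact_mod_cast hb1
  have hβ0 : (0 : ℝ) < β := by exact_mod_cast hβ1
  have hβinv : 1 / (β : ℝ) ≤ 1 := by
    rw [div_le_one hβ0]; exact_mod_cast hβ1
  set q : ℝ := 1 - 1 / (β : ℝ) with hq
  have hq0 : 0 ≤ q := by rw [hq]; linarith
  have hq1 : q ≤ 1 := by
    have : 0 ≤ 1 / (β : ℝ) := by positivity
    rw [hq]; linarith
  have hqη : 1 + η / 2 ≤ q * (1 + η) := by
    have h1 : (1 + η) / (β : ℝ) ≤ η / 2 := by
      rw [div_le_iff₀ hβ0]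
      rw [div_le_iff₀ hη] at hβη
      linarith
    have h2 : q * (1 + η) = (1 + η) - (1 + η) / (β : ℝ) := by rw [hq]; ring
    rw [h2]; linarith
  set X : ℝ := (((k - l + 1 : ℕ) : ℝ) / (l : ℝ)) with hX
  have hX0 : 0 ≤ X := by positivity
  have hfl := floor_ge (k := k) (b := b) hl hlk hβ1 hb
  rw [← hq, ← hX] at hfl
  have hpow : q * (X ^ γ * (b : ℝ) ^ γ) ≤ (((k - l + 1) * b / l : ℕ) : ℝ) ^ γ := by
    calc q * (X ^ γ * (b : ℝ) ^ γ) ≤ q ^ γ * (X ^ γ * (b : ℝ) ^ γ) := by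
          apply mul_le_mul_of_nonneg_right _ (by positivity)
          calc q = q ^ (1 : ℝ) := (Real.rpow_one q).symm
            _ ≤ q ^ γ := Real.rpow_le_rpow_of_exponent_ge' hq0 hq1 hγ0.le hγ1
      _ = (q * (X * b)) ^ γ := by
          rw [Real.mul_rpow hq0 (by positivity), Real.mul_rpow hX0 (by positivity)]
      _ ≤ _ := Real.rpow_le_rpow (by positivity) hfl hγ0.le
  have hbγ : 0 < (b : ℝ) ^ γ := by positivity
  have hCb : C * (b : ℝ) ^ c' ≤ Θ * ρ l * (η / 2) * (b : ℝ) ^ γ := by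
    have h1 : (b : ℝ) ^ c' ≤ (b : ℝ) ^ γ := Real.rpow_le_rpow_of_exponent_le hb1' hcγ.le
    have h2 := hΘ l hl hlk
    have h3 : 0 ≤ Θ * ρ l * (η / 2) := by positivity
    calc C * (b : ℝ) ^ c' ≤ Θ * ρ l * (η / 2) * (b : ℝ) ^ c' := by
          apply mul_le_mul_of_nonneg_right h2 (by positivity)
      _ ≤ _ := by apply mul_le_mul_of_nonneg_left h1 h3
  have key : Θ * (b : ℝ) ^ γ * ((1 + η / 2) * ρ l) ≤
      wt k σ s l * (Θ * ρ (k - l) * (((k - l + 1) * b / l : ℕ) : ℝ) ^ γ) +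
        (1 - wt k σ s l) * (Θ * ρ (l - 1) * (b : ℝ) ^ γ) := by
    have h1 : (1 + η / 2) * ρ l ≤ q * (wt k σ s l * X ^ γ * ρ (k - l) +
        (1 - wt k σ s l) * ρ (l - 1)) := by
      calc (1 + η / 2) * ρ l ≤ q * (1 + η) * ρ l := by
            apply mul_le_mul_of_nonneg_right hqη hρl.le
        _ = q * ((1 + η) * ρ l) := by ring
        _ ≤ _ := mul_le_mul_of_nonneg_left hη' hq0
    have h2 : q * (wt k σ s l * X ^ γ * ρ (k - l) + (1 - wt k σ s l) * ρ (l - 1)) ≤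
        wt k σ s l * (q * X ^ γ) * ρ (k - l) + (1 - wt k σ s l) * ρ (l - 1) := by
      have h3 : q * ((1 - wt k σ s l) * ρ (l - 1)) ≤ 1 * ((1 - wt k σ s l) * ρ (l - 1)) :=
        mul_le_mul_of_nonneg_right hq1 (mul_nonneg (by linarith) hρl1)
      nlinarith
    have h4 : Θ * (b : ℝ) ^ γ * ((1 + η / 2) * ρ l) ≤ Θ * (b : ℝ) ^ γ *
        (wt k σ s l * (q * X ^ γ) * ρ (k - l) + (1 - wt k σ s l) * ρ (l - 1)) :=
      mul_le_mul_of_nonneg_left (h1.trans h2) (by positivity)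
    refine h4.trans ?_
    have h5 : wt k σ s l * (Θ * ρ (k - l)) * (q * (X ^ γ * (b : ℝ) ^ γ)) ≤
        wt k σ s l * (Θ * ρ (k - l)) * (((k - l + 1) * b / l : ℕ) : ℝ) ^ γ :=
      mul_le_mul_of_nonneg_left hpow (by positivity)
    have e1 : Θ * (b : ℝ) ^ γ *
        (wt k σ s l * (q * X ^ γ) * ρ (k - l) + (1 - wt k σ s l) * ρ (l - 1)) =
        wt k σ s l * (Θ * ρ (k - l)) * (q * (X ^ γ * (b : ℝ) ^ γ)) +
        (1 - wt k σ s l) * (Θ * ρ (l - 1) * (b : ℝ) ^ γ) := by ring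
    rw [e1]
    have e2 : wt k σ s l * (Θ * ρ (k - l)) * (((k - l + 1) * b / l : ℕ) : ℝ) ^ γ =
        wt k σ s l * (Θ * ρ (k - l) * (((k - l + 1) * b / l : ℕ) : ℝ) ^ γ) := by ring
    rw [e2] at h5
    linarith
  have e3 : Θ * (b : ℝ) ^ γ * ((1 + η / 2) * ρ l) =
      Θ * ρ l * (b : ℝ) ^ γ + Θ * ρ l * (η / 2) * (b : ℝ) ^ γ := by ring
  rw [e3] at key
  linarith

/-- the contraction factors -/
noncomputable def kap (k : ℕ) (σ : ℕ → ℝ) (s : ℝ) : ℕ → ℝ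
  | 0 => 0
  | l + 1 => wt k σ s (l + 1) + (1 - wt k σ s (l + 1)) * kap k σ s l

theorem kap_bounds {k : ℕ} {σ ρ : ℕ → ℝ} {γ η s : ℝ} (hP : Par k σ ρ γ η s) :
    ∀ l : ℕ, l < k → 0 ≤ kap k σ s l ∧ kap k σ s l < 1 := by
  intro l
  induction l with
  | zero => intro _; simp [kap]
  | succ l ih =>
    intro hl
    obtain ⟨h0, h1⟩ := ih (by omega)
    obtain ⟨hw0, hw1⟩ := wt_bounds hP (l := l + 1) (by omega) hl
    simp only [kap]
    constructor
    · have := mul_nonneg (sub_nonneg.2 hw1.le) h0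
      linarith
    · nlinarith

theorem mx : T_MX := by
  intro k σ ρ γ η c' C hk hc0 hcγ hγ1 hC hη
  by_cases hex : ∃ s, Par k σ ρ γ η s
  swap
  · refine ⟨0, 1, one_pos, ?_⟩
    intro s hs
    exact absurd ⟨s, hs⟩ hex
  obtain ⟨s₁, hs₁⟩ := hex
  have hρpos : ∀ l, 1 ≤ l → l < k → 0 < ρ l := fun l hl hlk => (hs₁.2.2.2 l hl hlk).1
  have hγ0 : 0 < γ := lt_of_le_of_lt hc0 hcγ
  refine ⟨⌈2 * (1 + η) / η⌉₊, 1 + ∑ l ∈ Ico 1 k, C / (ρ l * (η / 2)), ?_, ?_⟩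
  · have : 0 ≤ ∑ l ∈ Ico 1 k, C / (ρ l * (η / 2)) := by
      apply sum_nonneg
      intro l hl
      rw [mem_Ico] at hl
      have := hρpos l hl.1 hl.2
      positivity
    linarith
  intro s hs β N P T xT Θ hβ₀ hβ1 hβN hΘ₀ hmono hzero hterm hstep hbig
  have hsum0 : 0 ≤ ∑ l ∈ Ico 1 k, C / (ρ l * (η / 2)) := by
    apply sum_nonneg
    intro l hl
    rw [mem_Ico] at hl
    have := hρpos l hl.1 hl.2
    positivity
  have hΘ0 : 0 < Θ := by linarith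
  have hΘ : ∀ l, 1 ≤ l → l < k → C ≤ Θ * ρ l * (η / 2) := by
    intro l hl hlk
    have h1 : C / (ρ l * (η / 2)) ≤ ∑ l ∈ Ico 1 k, C / (ρ l * (η / 2)) := by
      apply single_le_sum (f := fun l => C / (ρ l * (η / 2))) _ (mem_Ico.2 ⟨hl, hlk⟩)
      intro l hl
      rw [mem_Ico] at hl
      have := hρpos l hl.1 hl.2
      positivity
    have hρl := hρpos l hl hlk
    have h2 : C / (ρ l * (η / 2)) ≤ Θ := by linarith
    rw [div_le_iff₀ (by positivity)] at h2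
    linarith
  have hβη : 2 * (1 + η) / η ≤ β := le_trans (Nat.le_ceil _) (by exact_mod_cast hβ₀)
  have hρnn : ∀ l, l < k → 0 ≤ ρ l := by
    intro l hlk
    rcases Nat.eq_zero_or_pos l with h | h
    · rw [h, hs.2.2.1]
    · exact (hρpos l h hlk).le
  -- Claim 2
  have claim2 : ∀ D : ℝ, 0 ≤ D →
      (∀ l b : ℕ, l < k → β * l ≤ b → b ≤ N → P l b (Θ * ρ l * (b : ℝ) ^ γ - D)) →
      ∀ l b : ℕ, l < k → β * l ≤ b → b ≤ N →
        P l b (Θ * ρ l * (b : ℝ) ^ γ - kap k σ s l * D) := by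
    intro D hD hPD l
    induction l with
    | zero =>
      intro b hlk hb hbN
      have h0 := hzero 0 b hlk hb hbN
      have : Θ * ρ 0 * (b : ℝ) ^ γ - kap k σ s 0 * D = 0 := by
        rw [hs.2.2.1]; simp [kap]
      rw [this]; exact h0
    | succ l ih =>
      intro b hlk hb hbN
      obtain ⟨hκ0, hκ1⟩ := kap_bounds hs (l + 1) hlk
      by_cases hT : T (l + 1) b
      · have h1 := hterm (l + 1) b (by omega) hlk hb hbN hT
        refine hmono _ _ _ _ ?_ h1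
        have h2 := hbig (l + 1) (by omega) hlk
        have h3 : Θ * ρ (l + 1) * (b : ℝ) ^ γ ≤ Θ * ρ (l + 1) * (N : ℝ) ^ γ := by
          apply mul_le_mul_of_nonneg_left
          · exact Real.rpow_le_rpow (by positivity) (by exact_mod_cast hbN) hγ0.le
          · exact mul_nonneg hΘ0.le (hρnn _ hlk)
        have h4 := mul_nonneg hκ0 hD
        linarith
      · obtain ⟨haN, hrule⟩ := hstep (l + 1) b (by omega) hlk hb hbN hT
        have hβa : β * (k - (l + 1)) ≤ (k - (l + 1) + 1) * b / (l + 1) := by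
          rw [Nat.le_div_iff_mul_le (by omega)]
          calc β * (k - (l + 1)) * (l + 1) = (k - (l + 1)) * (β * (l + 1)) := by ring
            _ ≤ (k - (l + 1) + 1) * b := Nat.mul_le_mul (by omega) hb
        have hx := hPD (k - (l + 1)) ((k - (l + 1) + 1) * b / (l + 1)) (by omega) hβa haN
        have hy := ih b (by omega) (le_trans (Nat.mul_le_mul_left _ (by omega)) hb) hbN
        have h := hrule _ _ hx (by simpa using hy)
        refine hmono _ _ _ _ ?_ h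
        have hc1 := claim1 (C := C) hc0 hcγ hγ1 hη hs hβη hβ1 hΘ0 hΘ (l := l + 1) (b := b)
          (by omega) hlk hb
        simp only [Nat.add_sub_cancel] at hc1 ⊢
        simp only [kap]
        set w := wt k σ s (l + 1)
        set V := Θ * ρ (k - (l + 1)) * (((k - (l + 1) + 1) * b / (l + 1) : ℕ) : ℝ) ^ γ
        set V' := Θ * ρ l * (b : ℝ) ^ γ
        have e : w * (V - D) + (1 - w) * (V' - kap k σ s l * D) - C * (b : ℝ) ^ c' =
          (w * V + (1 - w) * V' - C * (b : ℝ) ^ c') - (w + (1 - w) * kap k σ s l) * D := by ring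
        rw [e]
        linarith
  -- uniform contraction factor
  obtain ⟨κ, hκ0, hκ1, hκ⟩ : ∃ κ : ℝ, 0 ≤ κ ∧ κ < 1 ∧ ∀ l < k, kap k σ s l ≤ κ := by
    have hne : (range k).Nonempty := ⟨0, mem_range.2 (by omega)⟩
    refine ⟨(range k).sup' hne (kap k σ s), ?_, ?_, ?_⟩
    · exact le_trans (kap_bounds hs 0 (by omega)).1
        (Finset.le_sup' (kap k σ s) (mem_range.2 (by omega)))
    · rw [Finset.sup'_lt_iff]
      intro l hl
      exact (kap_bounds hs l (mem_range.1 hl)).2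
    · intro l hl
      exact Finset.le_sup' (kap k σ s) (mem_range.2 hl)
  -- iteration
  set D₀ : ℝ := Θ * (∑ l ∈ range k, ρ l) * (N : ℝ) ^ γ with hD₀
  have hsumρ : 0 ≤ ∑ l ∈ range k, ρ l := sum_nonneg fun l hl => hρnn l (mem_range.1 hl)
  have hD₀0 : 0 ≤ D₀ := by positivity
  have iter : ∀ j : ℕ, ∀ l b : ℕ, l < k → β * l ≤ b → b ≤ N →
      P l b (Θ * ρ l * (b : ℝ) ^ γ - κ ^ j * D₀) := by
    intro j
    induction j with
    | zero =>
      intro l b hlk hb hbN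
      refine hmono _ _ _ _ ?_ (hzero l b hlk hb hbN)
      have h1 : ρ l ≤ ∑ l ∈ range k, ρ l :=
        single_le_sum (f := ρ) (fun l hl => hρnn l (mem_range.1 hl)) (mem_range.2 hlk)
      have h2 : (b : ℝ) ^ γ ≤ (N : ℝ) ^ γ :=
        Real.rpow_le_rpow (by positivity) (by exact_mod_cast hbN) hγ0.le
      have h3 : Θ * ρ l * (b : ℝ) ^ γ ≤ D₀ := by
        rw [hD₀]
        apply mul_le_mul (mul_le_mul_of_nonneg_left h1 hΘ0.le) h2 (by positivity)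
        positivity
      rw [pow_zero, one_mul]
      linarith
    | succ j ih =>
      intro l b hlk hb hbN
      have h := claim2 (κ ^ j * D₀) (by positivity) ih l b hlk hb hbN
      refine hmono _ _ _ _ ?_ h
      have h1 : kap k σ s l * (κ ^ j * D₀) ≤ κ * (κ ^ j * D₀) :=
        mul_le_mul_of_nonneg_right (hκ l hlk) (by positivity)
      rw [pow_succ]
      nlinarith
  obtain ⟨j, hj⟩ : ∃ j : ℕ, κ ^ j * D₀ ≤ 1 := by
    obtain ⟨j, hj⟩ := exists_pow_lt_of_lt_one (show (0 : ℝ) < 1 / (D₀ + 1) by positivity) hκ1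
    refine ⟨j, ?_⟩
    rw [lt_div_iff₀ (by positivity)] at hj
    have : 0 ≤ κ ^ j := by positivity
    nlinarith
  have hfin := iter j 1 β (by omega) (by omega) hβN
  exact hmono _ _ _ _ (by linarith) hfin

end Pool.Agent.H35.VM
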