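import Pool.Agent.H22.VM.Targets
import Pool.Agent.H35.VM.MX

/-!
# PS: the recursion step (helper35)
-/

set_option autoImplicit false

open Finset

namespace Pool.Agent.H35.VM

open Pool.Agent.H22.VM

theorem nat_a1 {k b n : ℕ} (hk : 2 ≤ k) (hbn : b ≤ n) :
    b ≤ min (2 * (k * b) / (k - 1)) n := by
  refine le_min ?_ hbn
  rw [Nat.le_div_iff_mul_le (by omega)]
  obtain ⟨m, rfl⟩ : ∃ m, k = m + 1 := ⟨k - 1, by omega⟩
  simp only [Nat.add_sub_cancel]
  nlinarith

/-- lower bound for `l * a_l(b)` -/
theorem nat_fl {k l b : ℕ} (hl : 1 ≤ l) :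
    (k - l + 1) * b + 1 ≤ l * ((k - l + 1) * b / l) + l := by
  have h := Nat.lt_div_mul_add (a := (k - l + 1) * b) (b := l) (by omega)
  rw [mul_comm l]
  omega

theorem nat_fu {k l b : ℕ} : l * ((k - l + 1) * b / l) ≤ (k - l + 1) * b :=
  Nat.mul_div_le _ _

theorem pow_cost {k b a' : ℕ} {c' C'' : ℝ} (hc : 0 ≤ c') (hC : 0 ≤ C'') (h : a' ≤ k ^ 3 * b) :
    C'' * (a' : ℝ) ^ c' ≤ C'' * ((k : ℝ) ^ 3) ^ c' * (b : ℝ) ^ c' := by
  rw [mul_assoc, ← Real.mul_rpow (by positivity) (by positivity)]
  apply mul_le_mul_of_nonneg_left _ hC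
  apply Real.rpow_le_rpow (by positivity) _ hc
  exact_mod_cast h

theorem ps (hBI : T_BI) (hB0 : T_B0) (hBO : T_BO) (hRA : T_RA) : T_PS := by
  intro p k σ ρ γ η c' C' hp hkp hk hc0 hC0 hflat
  obtain ⟨C'', hC'', hraise⟩ := hRA p k σ c' C' hp hkp hk hc0 hC0 hflat
  refine ⟨C'' * ((k : ℝ) ^ 3) ^ c', by positivity, ?_⟩
  intro s M L n β hPar hM hβ ι Ω _ w R r F hw hInv hmo hfin l b hl hlk hb hbn han x y hx hy
  have hp1 : 1 < p := hp.one_lt
  have hs2 : 2 ≤ s := by
    have := hPar.2.2.2 l hl hlk
    linarith [this.2.1, this.2.2.1]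
  have hσ : ∀ j, 1 ≤ j → j < k → 1 ≤ σ j ∧ σ j ≤ s := by
    intro j hj hjk
    have := hPar.2.2.2 j hj hjk
    exact ⟨this.2.1, by linarith [this.2.2.1]⟩
  obtain ⟨htriv, -, hswap, hmono⟩ := hB0 p n s M L hp1 hM (by linarith) ι Ω w R r F hw hmo hfin
  have hb3k : 3 * k ≤ b := by
    calc 3 * k ≤ β := hβ
      _ = β * 1 := (mul_one _).symm
      _ ≤ β * l := Nat.mul_le_mul_left _ hl
      _ ≤ b := hb
  obtain ⟨hw0, hw1⟩ := wt_bounds hPar hl hlk
  set W := wt k σ s l with hW
  have hPl := hPar.2.2.2 l hl hlk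
  have hbc : 0 ≤ (b : ℝ) ^ c' := by positivity
  rcases Nat.lt_or_ge l 2 with hl2 | hl2
  · -- l = 1
    obtain rfl : l = 1 := by omega
    have ek : (k - 1 + 1) * b / 1 = k * b := by
      rw [Nat.div_one, Nat.sub_add_cancel (by omega)]
    rw [ek] at han hx
    refine ⟨fun h => absurd h (by norm_num), fun _ => ?_, fun h => absurd h (by norm_num)⟩
    intro a ha1 han' ha4
    have hy0 : y ≤ 0 := hy.1 rfl
    have hakb : a ≤ k * b := by
      have h4 : 4 * a ≤ 3 * (k * b) := by rw [← mul_assoc]; exact ha4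
      omega
    apply hBO p k n a (k * b) b s M L _ hp hkp (by omega) ha1 hakb han (le_refl _) hbn
      ι Ω w R r F hInv
    -- the bound at scale (b, k b)
    have hx2 : BL p s n w R r F M L (σ (k - 1)) b (k * b)
        (x - C'' * ((k : ℝ) ^ 3) ^ c' * (b : ℝ) ^ c') := by
      rcases Nat.lt_or_ge k 3 with hk3 | hk3
      · obtain rfl : k = 2 := by omega
        have h1 := hx.2.1 (by norm_num) b (by omega) hbn (by omega)
        have e1 : σ (2 - 1) = 1 := hPar.2.1
        rw [e1]
        refine hmono _ _ _ _ _ ?_ h1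
        have : 0 ≤ C'' * (((2 : ℕ) : ℝ) ^ 3) ^ c' * (b : ℝ) ^ c' := by positivity
        linarith
      · have h1 := hx.2.2 (by omega)
        have e1 : k - (k - 1) + 1 = 2 := by omega
        rw [e1] at h1
        have hσk := hσ (k - 1) (by omega) (by omega)
        have h2k : 2 * (k * b) / (k - 1) ≤ 2 * (k * b) := Nat.div_le_self _ _
        have hcost : min (2 * (k * b) / (k - 1)) n ≤ k ^ 3 * b := by
          refine le_trans (min_le_left _ _) (h2k.trans ?_)
          have : 2 * k ≤ k ^ 3 := by nlinarith [Nat.mul_le_mul hk hk]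
          calc 2 * (k * b) = (2 * k) * b := by ring
            _ ≤ k ^ 3 * b := Nat.mul_le_mul_right _ this
        have h2 := hraise s M L x n (k - 1) b (min (2 * (k * b) / (k - 1)) n) (k * b) hM (by omega)
          (by omega) (by linarith [hσk.1]) hσk.2 (by omega) (nat_a1 hk hbn) (min_le_right _ _)
          (by
            rw [e1]
            exact le_trans (Nat.mul_le_mul_left _ (min_le_left _ _)) (Nat.mul_div_le _ _))
          han (by nlinarith) hcost ι Ω w R r F hw hInv h1
        refine hmono _ _ _ _ _ ?_ h2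
        have := pow_cost (c' := c') (C'' := C'') hc0 hC'' hcost
        linarith
    have hx3 := hswap _ _ _ _ hx2
    have hy3 := htriv 0 (k * b) b (le_refl _) (by linarith) han hbn
    have hd : 0 < s - σ (k - 1) - σ 1 := hPl.2.2.2.2.1
    have hσk := hσ (k - 1) (by omega) (by omega)
    have hI := hBI p n (k * b) b s M L 0 (s - σ (k - 1)) W 0 _ hp1 hM (le_refl _) (by linarith)
      (by linarith [hPar.2.1]) (by linarith [hσk.1]) hw0.le hw1.le ι Ω w R r F hw hy3 hx3
    have et : (1 - W) * 0 + W * (s - σ (k - 1)) = 1 := by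
      rw [hW, wt]
      simp only [Nat.sub_self, hPar.1, hPar.2.1, sub_zero, mul_zero, zero_add]
      have : s - σ (k - 1) ≠ 0 := by linarith [hPar.2.1]
      field_simp
    rw [et] at hI
    refine hmono _ _ _ _ _ ?_ hI
    have h1 : (1 - W) * y ≤ 0 := mul_nonpos_of_nonneg_of_nonpos (by linarith) hy0
    have h2 : W * (C'' * ((k : ℝ) ^ 3) ^ c' * (b : ℝ) ^ c') ≤
        1 * (C'' * ((k : ℝ) ^ 3) ^ c' * (b : ℝ) ^ c') :=
      mul_le_mul_of_nonneg_right hw1.le (by positivity)
    nlinarith
  · -- l ≥ 2
    refine ⟨fun h => absurd h (by omega), fun h => absurd h (by omega), fun _ => ?_⟩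
    rw [min_eq_left han]
    have hfl := nat_fl (k := k) (l := l) (b := b) hl
    have hfu := nat_fu (k := k) (l := l) (b := b)
    set a := (k - l + 1) * b / l with ha
    obtain ⟨m, hm⟩ : ∃ m, k = l + m := ⟨k - l, by omega⟩
    have hm1 : 1 ≤ m := by omega
    have ekl : k - l = m := by omega
    rw [ekl] at hfl hfu
    -- a is large
    have hab : b ≤ l * a := by nlinarith
    have haβ : 3 * k ≤ a := by
      have h1 : β * (k - l + 1) ≤ a := by
        rw [ha, Nat.le_div_iff_mul_le (by omega)]
        calc β * (k - l + 1) * l = (k - l + 1) * (β * l) := by ring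
          _ ≤ (k - l + 1) * b := Nat.mul_le_mul_left _ hb
      nlinarith
    have hakb : a ≤ k * b := by
      calc a ≤ (k - l + 1) * b := Nat.div_le_self _ _
        _ ≤ k * b := Nat.mul_le_mul_right _ (by omega)
    have hk2 : k ≤ k ^ 2 := by nlinarith
    have hk3 : k ^ 2 ≤ k ^ 3 := Nat.pow_le_pow_right (by omega) (by norm_num)
    -- the first ingredient
    have hy2 : BL p s n w R r F M L (σ (l - 1)) a b
        (y - C'' * ((k : ℝ) ^ 3) ^ c' * (b : ℝ) ^ c') := by
      rcases Nat.lt_or_ge l 3 with hl3 | hl3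
      · obtain rfl : l = 2 := by omega
        have h1 := hy.2.1 (by norm_num) a (by omega) han (by nlinarith)
        have e1 : σ (2 - 1) = 1 := hPar.2.1
        rw [e1]
        refine hmono _ _ _ _ _ ?_ h1
        have : 0 ≤ C'' * ((k : ℝ) ^ 3) ^ c' * (b : ℝ) ^ c' := by positivity
        linarith
      · have h1 := hy.2.2 (by omega)
        have hσl := hσ (l - 1) (by omega) (by omega)
        have hup : (k - (l - 1) + 1) * b / (l - 1) ≤ k * b := by
          calc (k - (l - 1) + 1) * b / (l - 1) ≤ (k - (l - 1) + 1) * b := Nat.div_le_self _ _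
            _ ≤ k * b := Nat.mul_le_mul_right _ (by omega)
        have hcost : min ((k - (l - 1) + 1) * b / (l - 1)) n ≤ k ^ 3 * b := by
          refine le_trans (min_le_left _ _) (hup.trans (Nat.mul_le_mul_right _ (by omega)))
        have hcost2 : min ((k - (l - 1) + 1) * b / (l - 1)) n ≤ k ^ 3 * a := by
          refine le_trans (min_le_left _ _) (hup.trans ?_)
          calc k * b ≤ k * (l * a) := Nat.mul_le_mul_left _ hab
            _ ≤ k * (k * a) := Nat.mul_le_mul_left _ (Nat.mul_le_mul_right _ (by omega))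
            _ = k ^ 2 * a := by ring
            _ ≤ k ^ 3 * a := Nat.mul_le_mul_right _ hk3
        have hle : a ≤ min ((k - (l - 1) + 1) * b / (l - 1)) n := by
          refine le_min ?_ han
          rw [Nat.le_div_iff_mul_le (by omega)]
          calc a * (l - 1) ≤ a * l := Nat.mul_le_mul_left _ (by omega)
            _ = l * a := mul_comm _ _
            _ ≤ (m + 1) * b := hfu
            _ ≤ (k - (l - 1) + 1) * b := Nat.mul_le_mul_right _ (by omega)
        have h2 := hraise s M L y n (l - 1) a (min ((k - (l - 1) + 1) * b / (l - 1)) n) b hM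
          (by omega) (by omega) (by linarith [hσl.1]) hσl.2 (by omega) hle (min_le_right _ _)
          (le_trans (Nat.mul_le_mul_left _ (min_le_left _ _)) (Nat.mul_div_le _ _))
          hbn (by omega) hcost2 ι Ω w R r F hw hInv h1
        refine hmono _ _ _ _ _ ?_ h2
        have := pow_cost (c' := c') (C'' := C'') hc0 hC'' hcost
        linarith
    -- the second ingredient
    have hx2 : BL p s n w R r F M L (σ (k - l)) b a
        (x - C'' * ((k : ℝ) ^ 3) ^ c' * (b : ℝ) ^ c') := by
      rcases Nat.lt_or_ge m 2 with hm2 | hm2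
      · obtain rfl : m = 1 := by omega
        have h1 := hx.2.1 (by omega) b (by omega) hbn (by
          have : 2 * b + 1 ≤ l * a + l := by simpa using hfl
          nlinarith)
        rw [ekl, hPar.2.1]
        refine hmono _ _ _ _ _ ?_ h1
        have : 0 ≤ C'' * ((k : ℝ) ^ 3) ^ c' * (b : ℝ) ^ c' := by positivity
        linarith
      · have h1 := hx.2.2 (by omega)
        have hσl := hσ (k - l) (by omega) (by omega)
        have e1 : k - (k - l) + 1 = l + 1 := by omega
        rw [e1, ekl] at h1
        rw [ekl]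
        rw [ekl] at hσl
        have hup : (l + 1) * a / m ≤ k ^ 2 * b := by
          calc (l + 1) * a / m ≤ (l + 1) * a := Nat.div_le_self _ _
            _ ≤ k * a := Nat.mul_le_mul_right _ (by omega)
            _ ≤ k * (k * b) := Nat.mul_le_mul_left _ hakb
            _ = k ^ 2 * b := by ring
        have hcost : min ((l + 1) * a / m) n ≤ k ^ 3 * b := by
          refine le_trans (min_le_left _ _) (hup.trans (Nat.mul_le_mul_right _ hk3))
        have hle : b ≤ min ((l + 1) * a / m) n := by
          refine le_min ?_ hbn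
          rw [Nat.le_div_iff_mul_le (by omega)]
          -- m b ≤ (l+1) a
          have h3 : l * (b * m) ≤ l * ((l + 1) * a) := by
            have h4 : (l + 1) * ((m + 1) * b + 1) ≤ (l + 1) * (l * a + l) :=
              Nat.mul_le_mul_left _ hfl
            have h5 : (l + 1) * l ≤ (l + 1 + m) * b + (l + 1) := by nlinarith
            nlinarith
          exact Nat.le_of_mul_le_mul_left h3 (by omega)
        have h2 := hraise s M L x n m b (min ((l + 1) * a / m) n) a hM
          (by omega) (by omega) (by linarith [hσl.1]) hσl.2 (by omega) hle (min_le_right _ _)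
          (by
            have : k - m + 1 = l + 1 := by omega
            rw [this]
            exact le_trans (Nat.mul_le_mul_left _ (min_le_left _ _)) (Nat.mul_div_le _ _))
          han (by omega) hcost ι Ω w R r F hw hInv h1
        refine hmono _ _ _ _ _ ?_ h2
        have := pow_cost (c' := c') (C'' := C'') hc0 hC'' hcost
        linarith
    have hx3 := hswap _ _ _ _ hx2
    have hσl := hσ (l - 1) (by omega) (by omega)
    have hσkl := hσ (k - l) (by omega) (by omega)
    have hI := hBI p n a b s M L (σ (l - 1)) (s - σ (k - l)) W _ _ hp1 hM (by linarith [hσl.1])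
      hσl.2 (by linarith [hσkl.2]) (by linarith [hσkl.1]) hw0.le hw1.le ι Ω w R r F hw hy2 hx3
    have hd : 0 < s - σ (k - l) - σ (l - 1) := by linarith [hPl.2.2.2.1, hPl.2.2.2.2.1]
    have et : (1 - W) * σ (l - 1) + W * (s - σ (k - l)) = σ l := by
      have h1 : (1 - W) * σ (l - 1) + W * (s - σ (k - l)) =
          σ (l - 1) + W * (s - σ (k - l) - σ (l - 1)) := by ring
      rw [h1, hW, wt, div_mul_cancel₀ _ hd.ne']
      ring
    rw [et] at hI
    refine hmono _ _ _ _ _ ?_ hI
    apply le_of_eq
    ring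

end Pool.Agent.H35.VM
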