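import Pool.Agent.H28.VM.Basic

/-!
# MP_71a28e_an, module STRIP: exponential bounds by finite elimination of frequencies
-/

set_option autoImplicit false

namespace Pool.Agent.H35.VM

open Pool.Agent.H28.VM Finset

/-! ### elimination of frequencies by time shifts -/

theorem elim {ι : Type*} [DecidableEq ι] (om s : ι → ℝ) (w0 : ℝ) (Z : Finset ι)
    (hZ : ∀ l ∈ Z, om l = w0) (T : ℝ) (P : Finset ι) :
    ∀ (b : ι → ℂ) (H a : ℝ), Disjoint Z P → (∀ p ∈ P, 0 ≤ s p) →
      (∀ p ∈ P, ee ((om p - w0) * s p) ≠ 1) → 0 ≤ H → a + ∑ p ∈ P, s p ≤ T →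
      (∀ t, a ≤ t → t ≤ T → ‖∑ l ∈ Z ∪ P, b l * ee (-(om l * t))‖ ≤ H) →
      ‖∑ l ∈ Z, b l‖ ≤ H * ∏ p ∈ P, (2 / ‖1 - ee ((om p - w0) * s p)‖) := by
  induction P using Finset.induction_on with
  | empty =>
    intro b H a _ _ _ _ hT hb
    simp only [sum_empty, add_zero] at hT
    have h := hb T hT le_rfl
    rw [union_empty] at h
    have h1 : ∑ l ∈ Z, b l * ee (-(om l * T)) = (∑ l ∈ Z, b l) * ee (-(w0 * T)) := by
      rw [sum_mul]
      exact sum_congr rfl fun l hl => by rw [hZ l hl]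
    rw [h1, norm_mul, norm_ee, mul_one] at h
    simpa using h
  | insert p P hp ih =>
    intro b H a hd hs hne hH hT hb
    rw [sum_insert hp] at hT
    rw [disjoint_insert_right] at hd
    obtain ⟨hpZ, hd⟩ := hd
    have hsp := hs p (mem_insert_self _ _)
    have hnep := hne p (mem_insert_self _ _)
    set E : ℂ := 1 - ee (-((om p - w0) * s p)) with hE
    have hE0 : E ≠ 0 := by
      rw [hE, sub_ne_zero]
      intro h
      apply hnep
      rw [ee_neg] at h
      have := congrArg (starRingEnd ℂ) h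
      simpa using this.symm
    have hEn : ‖E‖ = ‖1 - ee ((om p - w0) * s p)‖ := by
      rw [hE, ee_neg, ← Complex.norm_conj]
      simp
    have hEpos : 0 < ‖E‖ := norm_pos_iff.mpr hE0
    set b' : ι → ℂ := fun l => b l * (1 - ee (-((om p - om l) * s p))) / E with hb'
    have hb'Z : ∀ l ∈ Z, b' l = b l := by
      intro l hl
      simp only [hb', hZ l hl]
      rw [← hE, mul_div_assoc, div_self hE0, mul_one]
    have key : ∀ t, ∑ l ∈ Z ∪ P, b' l * ee (-(om l * t)) =
        ((∑ l ∈ Z ∪ insert p P, b l * ee (-(om l * t))) -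
          ee (-(om p * s p)) * ∑ l ∈ Z ∪ insert p P, b l * ee (-(om l * (t - s p)))) / E := by
      intro t
      rw [mul_sum, ← sum_sub_distrib, sum_div]
      have hins : Z ∪ insert p P = insert p (Z ∪ P) := by
        ext x; simp only [mem_union, mem_insert]; tauto
      have hnot : p ∉ Z ∪ P := by simp [hpZ, hp]
      rw [hins, sum_insert hnot]
      have h0 : (b p * ee (-(om p * t)) -
          ee (-(om p * s p)) * (b p * ee (-(om p * (t - s p))))) / E = 0 := by
        have : ee (-(om p * s p)) * ee (-(om p * (t - s p))) = ee (-(om p * t)) := by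
          rw [← ee_add]; congr 1; ring
        rw [show ee (-(om p * s p)) * (b p * ee (-(om p * (t - s p)))) =
          b p * (ee (-(om p * s p)) * ee (-(om p * (t - s p)))) by ring, this]
        simp
      rw [h0, zero_add]
      refine sum_congr rfl fun l _ => ?_
      simp only [hb']
      have h2 : ee (-((om p - om l) * s p)) * ee (-(om l * t)) =
          ee (-(om p * s p)) * ee (-(om l * (t - s p))) := by
        rw [← ee_add, ← ee_add]; congr 1; ring
      field_simp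
      linear_combination (-(b l)) * h2
    have hIH := ih b' (H * (2 / ‖E‖)) (a + s p) hd (fun q hq => hs q (mem_insert_of_mem hq))
      (fun q hq => hne q (mem_insert_of_mem hq)) (by positivity) (by linarith) (by
        intro t ht1 ht2
        rw [key t, norm_div]
        have h1 := hb t (by linarith) ht2
        have h2 := hb (t - s p) (by linarith) (by linarith)
        have h3 : ‖(∑ l ∈ Z ∪ insert p P, b l * ee (-(om l * t))) -
          ee (-(om p * s p)) * ∑ l ∈ Z ∪ insert p P, b l * ee (-(om l * (t - s p)))‖ ≤ 2 * H := by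
          refine (norm_sub_le _ _).trans ?_
          rw [norm_mul, norm_ee, one_mul]
          linarith
        calc _ ≤ 2 * H / ‖E‖ := by gcongr
          _ = H * (2 / ‖E‖) := by ring)
    rw [sum_congr rfl hb'Z] at hIH
    rw [prod_insert hp, ← hEn]
    calc ‖∑ l ∈ Z, b l‖ ≤ _ := hIH
      _ = _ := by ring

/-! ### elementary estimates -/

theorem norm_one_sub_ee (x : ℝ) : ‖1 - ee x‖ = 2 * |Real.sin (x / 2)| := by
  have h : ‖1 - ee x‖ ^ 2 = (2 * |Real.sin (x / 2)|) ^ 2 := by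
    rw [← Complex.normSq_eq_norm_sq, Complex.normSq_apply]
    unfold ee
    rw [Complex.exp_mul_I, ← Complex.ofReal_cos, ← Complex.ofReal_sin]
    simp only [Complex.sub_re, Complex.one_re, Complex.add_re, Complex.ofReal_re, Complex.mul_re,
      Complex.I_re, mul_zero, Complex.ofReal_im, Complex.I_im, mul_one, sub_self, add_zero,
      Complex.sub_im, Complex.one_im, Complex.add_im, Complex.mul_im, zero_add, zero_sub]
    rw [mul_pow, sq_abs]
    have hc : Real.cos x = 1 - 2 * Real.sin (x / 2) ^ 2 := by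
      have := Real.cos_sq' (x / 2)
      have h2 := Real.cos_two_mul (x / 2)
      rw [mul_div_cancel₀ x (two_ne_zero)] at h2
      rw [h2, this]; ring
    have hs := Real.sin_sq_add_cos_sq x
    nlinarith
  exact (pow_left_inj₀ (norm_nonneg _) (by positivity) two_ne_zero).mp h

theorem norm_one_sub_ee_ge {x : ℝ} (hx : |x| ≤ Real.pi) : 2 * |x| / Real.pi ≤ ‖1 - ee x‖ := by
  rw [norm_one_sub_ee]
  have h1 : 2 / Real.pi * |x / 2| ≤ |Real.sin (x / 2)| :=
    Real.mul_abs_le_abs_sin (by rw [abs_div]; simp; linarith)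
  rw [abs_div, abs_two] at h1
  calc 2 * |x| / Real.pi = 2 * (2 / Real.pi * (|x| / 2)) := by ring
    _ ≤ _ := by gcongr

/-- sums over the line with at most four indices of each level -/
theorem sum_level (f : ℕ → ℝ) (hf : ∀ k, 0 ≤ f k) (m : ℤ) (J : ℕ) (P : Finset ℤ)
    (hP : ∀ l ∈ P, l ≠ 0 ∧ l ≠ m ∧ l.natAbs ≤ J) :
    ∑ l ∈ P, f (min l.natAbs (l - m).natAbs) ≤ 4 * ∑ k ∈ Icc 1 J, f k := by
  have hmaps : ∀ l ∈ P, min l.natAbs (l - m).natAbs ∈ Icc 1 J := by
    intro l hl
    obtain ⟨h1, h2, h3⟩ := hP l hl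
    rw [mem_Icc]
    omega
  rw [← sum_fiberwise_of_maps_to hmaps, mul_sum]
  refine sum_le_sum fun k _ => ?_
  have h1 : ∑ l ∈ P with min l.natAbs (l - m).natAbs = k, f (min l.natAbs (l - m).natAbs) =
      ∑ l ∈ P with min l.natAbs (l - m).natAbs = k, f k := by
    refine sum_congr rfl fun l hl => ?_
    rw [(mem_filter.mp hl).2]
  rw [h1, sum_const, nsmul_eq_mul]
  have h2 : (P.filter fun l => min l.natAbs (l - m).natAbs = k) ⊆
      {(k : ℤ), -(k : ℤ), m + k, m - k} := by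
    intro l hl
    have := (mem_filter.mp hl).2
    simp only [mem_insert, mem_singleton]
    omega
  have h3 : (#(P.filter fun l => min l.natAbs (l - m).natAbs = k) : ℝ) ≤ 4 := by
    have := (card_le_card h2).trans (card_le_four)
    exact_mod_cast this
  have := hf k
  gcongr

/-! ### the time budget and the loss -/

/-- time spent on an index of level `k` -/
noncomputable def SS (T n : ℝ) (k0 k : ℕ) : ℝ :=
  if k < k0 then T / (8 * k0) else 3 * Real.pi * n / (k : ℝ) ^ 2

/-- logarithm of the loss at an index of level `k` -/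
noncomputable def GG (k0 k : ℕ) : ℝ := if k < k0 then 2 * Real.log ((k0 : ℝ) / k) else 0

theorem SS_nonneg (T n : ℝ) (hT : 0 ≤ T) (hn : 0 ≤ n) (k0 k : ℕ) : 0 ≤ SS T n k0 k := by
  unfold SS; split_ifs <;> positivity

theorem GG_nonneg (k0 k : ℕ) : 0 ≤ GG k0 k := by
  unfold GG
  split_ifs with h
  · rcases Nat.eq_zero_or_pos k with rfl | hk
    · simp
    · have hk' : (0 : ℝ) < k := by exact_mod_cast hk
      have : 1 ≤ (k0 : ℝ) / k := by
        rw [one_le_div hk']
        exact_mod_cast h.le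
      have := Real.log_nonneg this
      positivity
  · exact le_rfl

theorem sum_SS (T n : ℝ) (hT : 0 < T) (hn : 0 ≤ n) (k0 : ℕ) (hk0 : 1 ≤ k0)
    (h : 48 * Real.pi * n ≤ T * k0) (J : ℕ) : ∑ k ∈ Icc 1 J, SS T n k0 k ≤ T / 4 := by
  have hk0' : (0 : ℝ) < k0 := by exact_mod_cast hk0
  rw [← sum_filter_add_sum_filter_not (Icc 1 J) (fun k => k < k0)]
  have h1 : ∑ k ∈ Icc 1 J with k < k0, SS T n k0 k ≤ T / 8 := by
    have e1 : ∑ k ∈ Icc 1 J with k < k0, SS T n k0 k =
        ∑ k ∈ Icc 1 J with k < k0, T / (8 * k0) := by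
      refine sum_congr rfl fun k hk => ?_
      unfold SS
      rw [if_pos (mem_filter.mp hk).2]
    rw [e1, sum_const, nsmul_eq_mul]
    have e2 : (#((Icc 1 J).filter fun k => k < k0) : ℝ) ≤ k0 := by
      have : (Icc 1 J).filter (fun k => k < k0) ⊆ range k0 := by
        intro k hk; rw [mem_range]; exact (mem_filter.mp hk).2
      have := card_le_card this
      rw [card_range] at this
      exact_mod_cast this
    calc (#((Icc 1 J).filter fun k => k < k0) : ℝ) * (T / (8 * k0)) ≤ k0 * (T / (8 * k0)) := by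
          gcongr
      _ = T / 8 := by field_simp
  have h2 : ∑ k ∈ Icc 1 J with ¬ k < k0, SS T n k0 k ≤ T / 8 := by
    have e1 : ∑ k ∈ Icc 1 J with ¬ k < k0, SS T n k0 k =
        ∑ k ∈ Icc 1 J with ¬ k < k0, 3 * Real.pi * n * ((k : ℝ) ^ 2)⁻¹ := by
      refine sum_congr rfl fun k hk => ?_
      unfold SS
      rw [if_neg (mem_filter.mp hk).2, div_eq_mul_inv]
    rw [e1, ← mul_sum]
    have e2 : ∑ k ∈ Icc 1 J with ¬ k < k0, ((k : ℝ) ^ 2)⁻¹ ≤
        ∑ k ∈ Ioo (k0 - 1) (J + 1), ((k : ℝ) ^ 2)⁻¹ := by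
      apply sum_le_sum_of_subset_of_nonneg
      · intro k hk
        simp only [mem_filter, mem_Icc, mem_Ioo] at hk ⊢
        omega
      · intro k _ _; positivity
    have e3 := sum_Ioo_inv_sq_le (α := ℝ) (k0 - 1) (J + 1)
    have e4 : (((k0 - 1 : ℕ) : ℝ) + 1) = k0 := by
      have : ((k0 - 1 : ℕ) : ℝ) + 1 = ((k0 - 1 + 1 : ℕ) : ℝ) := by push_cast; ring
      rw [this, Nat.sub_add_cancel hk0]
    rw [e4] at e3
    have hpi := Real.pi_pos
    calc 3 * Real.pi * n * ∑ k ∈ Icc 1 J with ¬ k < k0, ((k : ℝ) ^ 2)⁻¹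
        ≤ 3 * Real.pi * n * (2 / k0) := by gcongr; exact e2.trans e3
      _ ≤ T / 8 := by
        rw [mul_div_assoc', div_le_iff₀ hk0']
        linarith
  linarith

theorem prod_Icc_cast (n : ℕ) : ∏ k ∈ Icc 1 n, (k : ℝ) = (n.factorial : ℝ) := by
  induction n with
  | zero => simp
  | succ n ih =>
    rw [prod_Icc_succ_top (by omega), ih, Nat.factorial_succ]
    push_cast
    ring

theorem sum_GG (k0 : ℕ) (hk0 : 1 ≤ k0) (J : ℕ) : ∑ k ∈ Icc 1 J, GG k0 k ≤ 2 * k0 := by
  have hk0' : (0 : ℝ) < k0 := by exact_mod_cast hk0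
  have h1 : ∑ k ∈ Icc 1 J, GG k0 k ≤ ∑ k ∈ Icc 1 (k0 - 1), GG k0 k := by
    rw [← sum_filter_add_sum_filter_not (Icc 1 J) (fun k => k < k0)]
    have e0 : ∑ k ∈ Icc 1 J with ¬ k < k0, GG k0 k = 0 := by
      refine sum_eq_zero fun k hk => ?_
      unfold GG
      rw [if_neg (mem_filter.mp hk).2]
    rw [e0, add_zero]
    apply sum_le_sum_of_subset_of_nonneg
    · intro k hk
      simp only [mem_filter, mem_Icc] at hk ⊢
      omega
    · intro k _ _; exact GG_nonneg k0 k
  refine h1.trans ?_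
  have h2 : ∑ k ∈ Icc 1 (k0 - 1), GG k0 k = 2 * ∑ k ∈ Icc 1 (k0 - 1), Real.log ((k0 : ℝ) / k) := by
    rw [mul_sum]
    refine sum_congr rfl fun k hk => ?_
    rw [mem_Icc] at hk
    unfold GG
    rw [if_pos (by omega)]
  rw [h2, ← Real.log_prod (fun k hk => by
    rw [mem_Icc] at hk
    have : (0 : ℝ) < k := by exact_mod_cast hk.1
    positivity)]
  have h3 : ∏ k ∈ Icc 1 (k0 - 1), ((k0 : ℝ) / k) = (k0 : ℝ) ^ (k0 - 1) / ((k0 - 1).factorial : ℝ) := by
    rw [prod_div_distrib, prod_const, Nat.card_Icc, Nat.add_sub_cancel]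
    rw [prod_Icc_cast]
  rw [h3]
  have h4 := Real.pow_div_factorial_le_exp (k0 : ℝ) hk0'.le (k0 - 1)
  have h5 : Real.log ((k0 : ℝ) ^ (k0 - 1) / ((k0 - 1).factorial : ℝ)) ≤ k0 := by
    rw [Real.log_le_iff_le_exp (by positivity)]
    exact h4
  linarith

/-! ### geometry of a line -/

theorem WW_half {w : ℤ × ℤ} (hw : w ∈ WW) (k : ℤ × ℤ) :
    ∃ m : ℤ, (w.1 ^ 2 + w.2 ^ 2) * m = -2 * al k w := by
  rcases WW_norm hw with h | h
  · exact ⟨-2 * al k w, by rw [h]; ring⟩
  · exact ⟨-al k w, by rw [h]; ring⟩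

theorem nm_w_sq {w : ℤ × ℤ} (hw : w ∈ WW) : 1 ≤ nm w ^ 2 ∧ nm w ^ 2 ≤ 2 := by
  rw [nm_sq]
  rcases WW_norm hw with h | h
  · have : ((w.1 : ℝ) ^ 2 + (w.2 : ℝ) ^ 2) = 1 := by exact_mod_cast h
    rw [this]; norm_num
  · have : ((w.1 : ℝ) ^ 2 + (w.2 : ℝ) ^ 2) = 2 := by exact_mod_cast h
    rw [this]; norm_num

theorem nm_w_le {w : ℤ × ℤ} (hw : w ∈ WW) : nm w ≤ 3 / 2 := by
  have := (nm_w_sq hw).2
  nlinarith [nm_nonneg w]

theorem om_sq (k w : ℤ × ℤ) (m : ℤ) (hm : (w.1 ^ 2 + w.2 ^ 2) * m = -2 * al k w) (l : ℤ) :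
    nm (sh k l w) ^ 2 - nm k ^ 2 = ((w.1 : ℝ) ^ 2 + (w.2 : ℝ) ^ 2) * (l * (l - m)) := by
  rw [nm_sq, nm_sq]
  have hm' : ((w.1 : ℝ) ^ 2 + (w.2 : ℝ) ^ 2) * m = -2 * ((k.1 : ℝ) * w.1 + k.2 * w.2) := by
    have := congrArg (fun z : ℤ => (z : ℝ)) hm
    simp only [al] at this
    push_cast at this
    exact this
  simp only [sh]
  push_cast
  linear_combination (l : ℝ) * hm'

theorem pe_le (k : ℤ × ℤ) {w : ℤ × ℤ} (hw : w ∈ WW) : |(pe k w : ℝ)| ≤ 3 / 2 * nm k := by
  have h1 := al_pe_sq k w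
  have h2 := (nm_w_sq hw).2
  apply abs_le_of_sq_le_sq _ (by have := nm_nonneg k; positivity)
  nlinarith [sq_nonneg (al k w : ℝ), sq_nonneg (nm k)]

theorem JJ_le (L : ℕ) (hL : 1000 ≤ L) (k : ℤ × ℤ) {w : ℤ × ℤ} (hw : w ∈ WW) :
    1000 * (JJ L w k : ℝ) ≤ 3 / 2 * nm k := by
  have h1 : JJ L w k * 1000 ≤ (pe k w).natAbs := by
    unfold JJ
    calc (pe k w).natAbs / L * 1000 ≤ (pe k w).natAbs / L * L := Nat.mul_le_mul_left _ hL
      _ ≤ _ := Nat.div_mul_le_self _ _
  have h2 : ((JJ L w k : ℝ)) * 1000 ≤ ((pe k w).natAbs : ℝ) := by exact_mod_cast h1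
  rw [Nat.cast_natAbs, Int.cast_abs] at h2
  linarith [pe_le k hw]

theorem om_le (L : ℕ) (hL : 1000 ≤ L) (k : ℤ × ℤ) {w : ℤ × ℤ} (hw : w ∈ WW) (l : ℤ)
    (hl : l.natAbs ≤ JJ L w k) : nm (sh k l w) ≤ 2 * nm k := by
  rw [sh_eq]
  refine (nm_add_le _ _).trans ?_
  have h1 : nm (l * w.1, l * w.2) ≤ (JJ L w k : ℝ) * nm w := by
    apply le_of_sq_le_sq _ (by have := nm_nonneg w; positivity)
    rw [mul_pow, nm_sq, nm_sq]
    have : (l : ℝ) ^ 2 ≤ (JJ L w k : ℝ) ^ 2 := by
      rw [← sq_abs (l : ℝ)]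
      have h3 : |(l : ℝ)| ≤ (JJ L w k : ℝ) := by
        have : ((l.natAbs : ℕ) : ℝ) ≤ (JJ L w k : ℝ) := by exact_mod_cast hl
        rwa [Nat.cast_natAbs, Int.cast_abs] at this
      have := abs_nonneg (l : ℝ)
      gcongr
    push_cast
    nlinarith [sq_nonneg (w.1 : ℝ), sq_nonneg (w.2 : ℝ)]
  have h2 := JJ_le L hL k hw
  have h3 := nm_w_le hw
  have h4 := nm_nonneg w
  have h5 : (0 : ℝ) ≤ JJ L w k := by positivity
  nlinarith [nm_nonneg k]

/-! ### the line estimate -/

theorem line_bound (L : ℕ) (hL : 1000 ≤ L) (c : ℤ × ℤ → ℂ) {w : ℤ × ℤ} (hw : w ∈ WW)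
    (k : ℤ × ℤ) (hk1 : 1 ≤ nm k) (T : ℝ) (hT : 0 < T) (H : ℝ) (hH : 0 ≤ H)
    (hb : ∀ t φ : ℝ, |t| ≤ T → |φ| ≤ 1 / 10 → ‖aline c L w k t φ‖ ≤ H) (k0 : ℕ) (hk0 : 1 ≤ k0)
    (hk0T : 48 * Real.pi * nm k ≤ T * k0) :
    ‖c k‖ ≤ (2 * (JJ L w k : ℝ) + 1) ^ 2 * (32 * (H * Real.exp (8 * k0))) := by
  obtain ⟨m, hm⟩ := WW_half hw k
  set J := JJ L w k with hJ
  set n := nm k with hn
  have hpi := Real.pi_pos
  have hk0' : (0 : ℝ) < k0 := by exact_mod_cast hk0
  set Z : Finset ℤ := (IJ J).filter (fun l => l = 0 ∨ l = m) with hZ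
  set P : Finset ℤ := (IJ J).filter (fun l => ¬ (l = 0 ∨ l = m)) with hP
  have hZP : Z ∪ P = IJ J := filter_union_filter_not_eq _ _
  set om : ℤ → ℝ := fun l => nm (sh k l w) with hom
  set D : ℤ → ℝ := fun l => |om l - n| with hD
  set lev : ℤ → ℕ := fun l => min l.natAbs (l - m).natAbs with hlev
  set s : ℤ → ℝ := fun l => min (SS T n k0 (lev l)) (Real.pi / D l) with hs
  set W : ℝ := (w.1 : ℝ) ^ 2 + (w.2 : ℝ) ^ 2 with hW
  have hW1 : 1 ≤ W := by have := (nm_w_sq hw).1; rwa [nm_sq] at this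
  have homsq : ∀ l : ℤ, om l ^ 2 - n ^ 2 = W * (l * (l - m)) := fun l => om_sq k w m hm l
  have homZ : ∀ l ∈ Z, om l = n := by
    intro l hl
    have h0 : (l : ℝ) * (l - m) = 0 := by
      rcases (mem_filter.mp hl).2 with rfl | rfl <;> simp
    have h1 := homsq l
    rw [h0, mul_zero, sub_eq_zero] at h1
    exact (pow_left_inj₀ (nm_nonneg _) (nm_nonneg _) two_ne_zero).mp h1
  have hPmem : ∀ l ∈ P, l ≠ 0 ∧ l ≠ m ∧ l.natAbs ≤ J := by
    intro l hl
    rw [hP, mem_filter, mem_IJ, not_or] at hl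
    exact ⟨hl.2.1, hl.2.2, hl.1⟩
  have hDge : ∀ l ∈ P, (lev l : ℝ) ^ 2 ≤ D l * (3 * n) := by
    intro l hl
    obtain ⟨_, _, h3⟩ := hPmem l hl
    have h4 : om l ≤ 2 * n := om_le L hL k hw l h3
    have h5 : 0 ≤ om l := nm_nonneg _
    have h6 : D l * (om l + n) = W * (|(l : ℝ)| * |(l : ℝ) - m|) := by
      have e1 : (om l - n) * (om l + n) = W * (l * (l - m)) := by rw [← homsq l]; ring
      have e2 := congrArg abs e1
      rw [abs_mul, abs_mul, abs_mul, abs_of_nonneg (by linarith : (0 : ℝ) ≤ om l + n),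
        abs_of_nonneg (by linarith : (0 : ℝ) ≤ W)] at e2
      exact e2
    have h7 : (lev l : ℝ) ≤ |(l : ℝ)| := by
      have : lev l ≤ l.natAbs := min_le_left _ _
      have : (lev l : ℝ) ≤ (l.natAbs : ℝ) := by exact_mod_cast this
      rwa [Nat.cast_natAbs, Int.cast_abs] at this
    have h8 : (lev l : ℝ) ≤ |(l : ℝ) - m| := by
      have : lev l ≤ (l - m).natAbs := min_le_right _ _
      have : (lev l : ℝ) ≤ ((l - m).natAbs : ℝ) := by exact_mod_cast this
      rwa [Nat.cast_natAbs, Int.cast_abs, Int.cast_sub] at this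
    have h9 : (0 : ℝ) ≤ lev l := by positivity
    have h10 : (lev l : ℝ) ^ 2 ≤ |(l : ℝ)| * |(l : ℝ) - m| := by
      rw [sq]; gcongr
    have h11 : 0 ≤ |(l : ℝ)| * |(l : ℝ) - m| := by positivity
    have h12 : D l * (om l + n) ≤ D l * (3 * n) := by
      have : 0 ≤ D l := abs_nonneg _
      gcongr
      linarith
    nlinarith
  have hlev1 : ∀ l ∈ P, 1 ≤ lev l := by
    intro l hl
    obtain ⟨h1, h2, _⟩ := hPmem l hl
    simp only [hlev]
    omega
  have hn0 : 0 < n := by linarith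
  have hDpos : ∀ l ∈ P, 0 < D l := by
    intro l hl
    have h1 := hDge l hl
    have h2 : (1 : ℝ) ≤ lev l := by exact_mod_cast hlev1 l hl
    by_contra hcon
    have h3 : D l ≤ 0 := not_lt.mp hcon
    nlinarith
  have hSpos : ∀ l ∈ P, 0 < SS T n k0 (lev l) := by
    intro l hl
    have h2 : (0 : ℝ) < lev l := by exact_mod_cast hlev1 l hl
    unfold SS
    split_ifs <;> positivity
  have hspos : ∀ l ∈ P, 0 < s l := by
    intro l hl
    exact lt_min (hSpos l hl) (div_pos hpi (hDpos l hl))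
  have hDs : ∀ l ∈ P, D l * s l ≤ Real.pi := by
    intro l hl
    have h1 : s l ≤ Real.pi / D l := min_le_right _ _
    have h2 := hDpos l hl
    calc D l * s l ≤ D l * (Real.pi / D l) := by gcongr
      _ = Real.pi := by field_simp
  have habs : ∀ l ∈ P, |(om l - n) * s l| = D l * s l := by
    intro l hl
    rw [abs_mul, abs_of_pos (hspos l hl)]
  have hnorm : ∀ l ∈ P, 2 * (D l * s l) / Real.pi ≤ ‖1 - ee ((om l - n) * s l)‖ := by
    intro l hl
    have := norm_one_sub_ee_ge (x := (om l - n) * s l) (by rw [habs l hl]; exact hDs l hl)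
    rwa [habs l hl] at this
  have hne : ∀ l ∈ P, ee ((om l - n) * s l) ≠ 1 := by
    intro l hl h
    have h1 := hnorm l hl
    rw [h, sub_self, norm_zero] at h1
    have h2 : 0 < 2 * (D l * s l) / Real.pi := by
      have := hDpos l hl; have := hspos l hl; positivity
    linarith
  have hgain : ∀ l ∈ P, Real.pi ≤ Real.exp (GG k0 (lev l)) * (D l * s l) := by
    intro l hl
    have hD0 := hDpos l hl
    have hDg := hDge l hl
    have hl1 : (0 : ℝ) < lev l := by exact_mod_cast hlev1 l hl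
    have hG := GG_nonneg k0 (lev l)
    rcases min_choice (SS T n k0 (lev l)) (Real.pi / D l) with h | h
    · have hsl : s l = SS T n k0 (lev l) := h
      rw [hsl]
      unfold SS GG
      split_ifs with hlt
      · have e1 : Real.exp (2 * Real.log ((k0 : ℝ) / lev l)) = ((k0 : ℝ) / lev l) ^ 2 := by
          rw [mul_comm, Real.exp_mul, Real.exp_log (by positivity)]
          norm_cast
        rw [e1]
        have e2 : (lev l : ℝ) ^ 2 / (3 * n) ≤ D l := by
          rw [div_le_iff₀ (by positivity)]; exact hDg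
        calc Real.pi ≤ 2 * Real.pi := by linarith
          _ ≤ ((k0 : ℝ) / lev l) ^ 2 * ((lev l : ℝ) ^ 2 / (3 * n) * (T / (8 * k0))) := by
            rw [show ((k0 : ℝ) / lev l) ^ 2 * ((lev l : ℝ) ^ 2 / (3 * n) * (T / (8 * k0))) =
              T * k0 / (24 * n) by field_simp; ring]
            rw [le_div_iff₀ (by positivity)]
            linarith
          _ ≤ _ := by gcongr
      · rw [Real.exp_zero, one_mul]
        have e2 : (lev l : ℝ) ^ 2 / (3 * n) ≤ D l := by
          rw [div_le_iff₀ (by positivity)]; exact hDg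
        calc Real.pi = (lev l : ℝ) ^ 2 / (3 * n) * (3 * Real.pi * n / (lev l : ℝ) ^ 2) := by
              field_simp
          _ ≤ _ := by gcongr
    · have hsl : s l = Real.pi / D l := h
      rw [hsl]
      have : D l * (Real.pi / D l) = Real.pi := by field_simp
      rw [this]
      have h1 : 1 ≤ Real.exp (GG k0 (lev l)) := Real.one_le_exp hG
      nlinarith
  have hfac : ∀ l ∈ P, 2 / ‖1 - ee ((om l - n) * s l)‖ ≤ Real.exp (GG k0 (lev l)) := by
    intro l hl
    have h1 := hnorm l hl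
    have h2 : 0 < 2 * (D l * s l) / Real.pi := by
      have := hDpos l hl; have := hspos l hl; positivity
    have h3 := hgain l hl
    have h4 := Real.exp_pos (GG k0 (lev l))
    rw [div_le_iff₀ (by linarith)]
    calc (2 : ℝ) = 2 * Real.pi / Real.pi := by field_simp
      _ ≤ 2 * (Real.exp (GG k0 (lev l)) * (D l * s l)) / Real.pi := by gcongr
      _ = Real.exp (GG k0 (lev l)) * (2 * (D l * s l) / Real.pi) := by ring
      _ ≤ _ := by gcongr
  have hsum : ∑ l ∈ P, s l ≤ T := by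
    calc ∑ l ∈ P, s l ≤ ∑ l ∈ P, SS T n k0 (lev l) := sum_le_sum fun l _ => min_le_left _ _
      _ ≤ 4 * ∑ j ∈ Icc 1 J, SS T n k0 j :=
        sum_level (SS T n k0) (fun j => SS_nonneg T n hT.le hn0.le k0 j) m J P hPmem
      _ ≤ 4 * (T / 4) := by
        have := sum_SS T n hT hn0.le k0 hk0 hk0T J
        linarith
      _ = T := by ring
  have hprod : ∏ l ∈ P, (2 / ‖1 - ee ((om l - n) * s l)‖) ≤ Real.exp (8 * k0) := by
    calc ∏ l ∈ P, (2 / ‖1 - ee ((om l - n) * s l)‖) ≤ ∏ l ∈ P, Real.exp (GG k0 (lev l)) :=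
          prod_le_prod (fun l _ => by positivity) hfac
      _ = Real.exp (∑ l ∈ P, GG k0 (lev l)) := (Real.exp_sum _ _).symm
      _ ≤ _ := by
        rw [Real.exp_le_exp]
        have h1 := sum_level (GG k0) (fun j => GG_nonneg k0 j) m J P hPmem
        have h2 := sum_GG k0 hk0 J
        calc _ ≤ _ := h1
          _ ≤ 8 * (k0 : ℝ) := by linarith
  -- the bound for the stationary part
  set b : ℝ → ℤ → ℂ := fun φ l => ((win J (l * w.1) * win J (l * w.2) : ℝ) : ℂ) *
    c (sh k l w) * ee ((l : ℝ) * φ) with hbdef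
  have hstat : ∀ φ : ℝ, |φ| ≤ 1 / 10 → ‖∑ l ∈ Z, b φ l‖ ≤ H * Real.exp (8 * k0) := by
    intro φ hφ
    have h1 := elim om s n Z homZ T P (b φ) H (-T) (by
        rw [hZ, hP]; exact disjoint_filter_filter_not _ _ _)
      (fun p hp => (hspos p hp).le) hne hH (by linarith) (by
        intro t ht1 ht2
        rw [hZP]
        have h2 := hb t φ (abs_le.mpr ⟨ht1, ht2⟩) hφ
        refine le_trans (le_of_eq ?_) h2
        congr 1
        unfold aline
        refine sum_congr rfl fun l _ => ?_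
        simp only [hbdef, hom]
        rw [mul_assoc, mul_assoc, mul_assoc, ← ee_add, ← sub_eq_add_neg])
    exact h1.trans (by gcongr)
  set A : ℂ := ((win J 0 * win J 0 : ℝ) : ℂ) * c k with hA
  set H' : ℝ := H * Real.exp (8 * k0) with hH'
  have hH'0 : 0 ≤ H' := by positivity
  have hAB : ‖A‖ ≤ 32 * H' := by
    have hb0 : ∀ φ, b φ 0 = A := by
      intro φ
      simp only [hbdef, hA]
      have : sh k 0 w = k := by simp [sh]
      rw [this]; simp
    by_cases hc : m ∈ IJ J ∧ m ≠ 0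
    · have hZ2 : Z = {0, m} := by
        ext l
        rw [hZ, mem_filter, mem_insert, mem_singleton]
        constructor
        · exact fun h => h.2
        · rintro (rfl | rfl)
          · exact ⟨zero_mem_IJ J, Or.inl rfl⟩
          · exact ⟨hc.1, Or.inr rfl⟩
      have hval : ∀ φ, ∑ l ∈ Z, b φ l = A + b 0 m * ee ((m : ℝ) * φ) := by
        intro φ
        rw [hZ2, sum_pair (Ne.symm hc.2), hb0]
        congr 1
        simp only [hbdef]
        rw [mul_zero, ee_zero, mul_one]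
      have hm1 : (1 : ℝ) ≤ |(m : ℝ)| := by
        have : (1 : ℤ) ≤ |m| := Int.one_le_abs hc.2
        exact_mod_cast this
      set φ1 : ℝ := min (1 / 10) (Real.pi / |(m : ℝ)|) with hφ1
      have hφ1pos : 0 < φ1 := lt_min (by norm_num) (by positivity)
      have h1 := hstat 0 (by norm_num)
      have h2 := hstat φ1 (by rw [abs_of_pos hφ1pos]; exact min_le_left _ _)
      rw [hval] at h1 h2
      rw [mul_zero, ee_zero, mul_one] at h1
      have h3 : |(m : ℝ) * φ1| ≤ Real.pi := by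
        rw [abs_mul, abs_of_pos hφ1pos]
        calc |(m : ℝ)| * φ1 ≤ |(m : ℝ)| * (Real.pi / |(m : ℝ)|) := by
              gcongr; exact min_le_right _ _
          _ = Real.pi := by field_simp
      have h4 : 1 / 10 ≤ |(m : ℝ) * φ1| := by
        rw [abs_mul, abs_of_pos hφ1pos]
        rcases min_choice (1 / 10 : ℝ) (Real.pi / |(m : ℝ)|) with h | h
        · rw [hφ1, h]; linarith
        · rw [hφ1, h]
          have : |(m : ℝ)| * (Real.pi / |(m : ℝ)|) = Real.pi := by field_simp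
          rw [this]
          linarith [Real.pi_gt_three]
      have h5 := norm_one_sub_ee_ge h3
      have h6 : A * (ee ((m : ℝ) * φ1) - 1) = (A + b 0 m) * ee ((m : ℝ) * φ1) -
          (A + b 0 m * ee ((m : ℝ) * φ1)) := by ring
      have h7 : ‖A‖ * ‖ee ((m : ℝ) * φ1) - 1‖ ≤ 2 * H' := by
        rw [← norm_mul, h6]
        refine (norm_sub_le _ _).trans ?_
        rw [norm_mul, norm_ee, mul_one]
        linarith
      rw [norm_sub_rev] at h7
      have h8 : 1 / 16 ≤ ‖1 - ee ((m : ℝ) * φ1)‖ := by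
        refine le_trans ?_ h5
        rw [le_div_iff₀ hpi]
        have := Real.pi_lt_d2
        linarith
      nlinarith [norm_nonneg A]
    · have hZ1 : Z = {0} := by
        ext l
        rw [hZ, mem_filter, mem_singleton]
        constructor
        · rintro ⟨h1, rfl | rfl⟩
          · rfl
          · by_contra h0
            exact hc ⟨h1, h0⟩
        · rintro rfl
          exact ⟨zero_mem_IJ J, Or.inl rfl⟩
      have h1 := hstat 0 (by norm_num)
      rw [hZ1, sum_singleton, hb0] at h1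
      linarith
  have hAn : ‖A‖ = win J 0 * win J 0 * ‖c k‖ := by
    rw [hA, norm_mul, Complex.norm_real, Real.norm_of_nonneg]
    have := win_nonneg J 0
    positivity
  have h1 := one_le_mul_win_zero J
  have h2 := win_nonneg J 0
  calc ‖c k‖ = 1 * 1 * ‖c k‖ := by ring
    _ ≤ ((2 * (J : ℝ) + 1) * win J 0) * ((2 * (J : ℝ) + 1) * win J 0) * ‖c k‖ := by gcongr
    _ = (2 * (J : ℝ) + 1) ^ 2 * ‖A‖ := by rw [hAn]; ring
    _ ≤ _ := by gcongr

/-- module STRIP -/
theorem strip : T_strip := by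
  intro L hL ε hε
  have hpi := Real.pi_pos
  set K : ℝ := (2 / ε) ^ 6 * 720 with hK
  have hKpos : 0 < K := by positivity
  refine ⟨768 * Real.pi / ε, 288 * Real.exp 16 * K, by positivity, by positivity, ?_⟩
  intro T ρ c N hT hρ hlow hNB
  have hT0 : 0 < T := lt_of_lt_of_le (by positivity) hT
  have hN := hNB.nonneg
  refine ⟨by positivity, ?_⟩
  intro k
  by_cases hk : nm k < 2 * ρ
  · rw [hlow k hk, norm_zero]
    have := Real.exp_pos (ε * nm k)
    positivity
  rw [not_lt] at hk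
  have hk1 : 1 ≤ nm k := by
    apply one_le_nm
    rintro rfl
    rw [nm_zero] at hk
    linarith
  have hρk : ρ ≤ nm k := by linarith
  set n := nm k with hn
  have hn0 : 0 < n := by linarith
  -- polynomial against exponential
  have hpoly : n ^ 6 ≤ K * Real.exp (ε / 2 * n) := by
    have h := Real.pow_div_factorial_le_exp (ε / 2 * n) (by positivity) 6
    have h6 : ((6 : ℕ).factorial : ℝ) = 720 := by norm_num [Nat.factorial]
    rw [h6, div_le_iff₀ (by norm_num)] at h
    calc n ^ 6 = (2 / ε) ^ 6 * (ε / 2 * n) ^ 6 := by field_simp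
      _ ≤ (2 / ε) ^ 6 * (Real.exp (ε / 2 * n) * 720) := by gcongr
      _ = _ := by rw [hK]; ring
  have h4 : n ^ 4 ≤ n ^ 6 := pow_le_pow_right₀ hk1 (by norm_num)
  have he : Real.exp (ε * n) = Real.exp (ε / 2 * n) * Real.exp (ε / 2 * n) := by
    rw [← Real.exp_add]; congr 1; ring
  have he1 : 1 ≤ Real.exp (ε / 2 * n) := Real.one_le_exp (by positivity)
  have he16 : 1 ≤ Real.exp 16 := Real.one_le_exp (by norm_num)
  by_cases hC : CC k
  · have h := hNB.coef k hρk hC
    calc ‖c k‖ ≤ n ^ 4 * N := h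
      _ ≤ n ^ 6 * N := by gcongr
      _ ≤ K * Real.exp (ε / 2 * n) * N := by gcongr
      _ ≤ K * Real.exp (ε / 2 * n) * N * (288 * Real.exp 16 * Real.exp (ε / 2 * n)) := by
        apply le_mul_of_one_le_right (by positivity)
        nlinarith
      _ = _ := by rw [he]; ring
  · unfold CC at hC
    push Not at hC
    obtain ⟨w, hw, hwk⟩ := hC
    have hnear : near w k := by
      unfold near
      have := abs_nonneg (al k w)
      linarith
    set k0 : ℕ := ⌈48 * Real.pi * n / T⌉₊ + 1 with hk0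
    have hk0a : 48 * Real.pi * n / T ≤ k0 := by
      rw [hk0]; push_cast
      have := Nat.le_ceil (48 * Real.pi * n / T)
      linarith
    have hk0b : (k0 : ℝ) ≤ 48 * Real.pi * n / T + 2 := by
      rw [hk0]; push_cast
      have := Nat.ceil_lt_add_one (a := 48 * Real.pi * n / T) (by positivity)
      linarith
    have hmain := line_bound L hL c hw k hk1 T hT0 (n ^ 4 * N) (by positivity)
      (fun t φ ht hφ => hNB.line w hw k hρk hnear t φ ht hφ) k0 (by omega) (by
        rw [div_le_iff₀ hT0] at hk0a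
        linarith)
    have hJ := JJ_le L hL k hw
    have hJ1 : (2 * (JJ L w k : ℝ) + 1) ^ 2 ≤ 9 * n ^ 2 := by
      have h0 : (0 : ℝ) ≤ JJ L w k := by positivity
      have : 2 * (JJ L w k : ℝ) + 1 ≤ 3 * n := by linarith
      calc _ ≤ (3 * n) ^ 2 := by gcongr
        _ = _ := by ring
    have hexp : Real.exp (8 * k0) ≤ Real.exp 16 * Real.exp (ε / 2 * n) := by
      rw [← Real.exp_add, Real.exp_le_exp]
      have h1 : 48 * Real.pi * n / T ≤ ε / 16 * n := by
        rw [div_le_iff₀ hT0]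
        rw [div_le_iff₀ hε] at hT
        nlinarith
      linarith
    calc ‖c k‖ ≤ _ := hmain
      _ ≤ 9 * n ^ 2 * (32 * (n ^ 4 * N * (Real.exp 16 * Real.exp (ε / 2 * n)))) := by gcongr
      _ = 288 * Real.exp 16 * (n ^ 6 * Real.exp (ε / 2 * n)) * N := by ring
      _ ≤ 288 * Real.exp 16 * (K * Real.exp (ε / 2 * n) * Real.exp (ε / 2 * n)) * N := by
        gcongr
      _ = _ := by rw [he]; ring

end Pool.Agent.H35.VM
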